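import Mathlib

/-!
# Products of overlaps of a pure state with the displacement operators

The basic identity `star_c`: the sum of `A(t) A(x + y - t)` against a character is
`d` times `A(x) A(y)`.
-/

set_option autoImplicit false

namespace Pool.Agent.K3h59.SICF

open Finset

set_option linter.unusedSectionVars false

variable {d : ℕ} [NeZero d]

/-- the standard character of `ZMod d` -/
noncomputable def e (x : ZMod d) : ℂ := ZMod.stdAddChar x

lemma e_add (x y : ZMod d) : e (x + y) = e x * e y := AddChar.map_add_eq_mul _ _ _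

lemma e_zero : e (0 : ZMod d) = 1 := AddChar.map_zero_eq_one _

lemma norm_e (x : ZMod d) : ‖e x‖ = 1 := by
  unfold e; rw [ZMod.stdAddChar_apply]; exact Circle.norm_coe _

lemma e_ne (x : ZMod d) : e x ≠ 0 := by
  intro h; have := norm_e x; rw [h, norm_zero] at this; exact one_ne_zero this.symm

lemma e_neg (x : ZMod d) : e (-x) = (e x)⁻¹ := by
  apply eq_inv_of_mul_eq_one_left
  rw [← e_add, neg_add_cancel, e_zero]

lemma conj_e (x : ZMod d) : starRingEnd ℂ (e x) = e (-x) := by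
  unfold e; rw [AddChar.map_neg_eq_conj]

lemma sum_e (x : ZMod d) : ∑ t : ZMod d, e (t * x) = if x = 0 then (d : ℂ) else 0 := by
  have h := AddChar.sum_mulShift (R := ZMod d) (R' := ℂ) x (ZMod.isPrimitive_stdAddChar d)
  unfold e
  rw [h, ZMod.card]
  push_cast
  rfl

/-- the overlap `⟨ψ, X ^ a Z ^ b ψ⟩` -/
noncomputable def c (ψ : ZMod d → ℂ) (a b : ZMod d) : ℂ :=
  ∑ j, starRingEnd ℂ (ψ (j + a)) * ψ j * e (b * j)

/-- **The product identity**, modulo `d`. -/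
theorem star_c (ψ : ZMod d → ℂ) (x1 x2 y1 y2 : ZMod d) :
    ∑ t1 : ZMod d, ∑ t2 : ZMod d, e (t1 * t2 - x1 * t2 - t1 * y2) *
      (c ψ t1 t2 * c ψ (x1 + y1 - t1) (x2 + y2 - t2)) =
    d * (e (-(x1 * y2)) * (c ψ x1 x2 * c ψ y1 y2)) := by
  have h1 : ∀ t1 t2 : ZMod d, e (t1 * t2 - x1 * t2 - t1 * y2) *
      (c ψ t1 t2 * c ψ (x1 + y1 - t1) (x2 + y2 - t2)) =
      ∑ j, ∑ k, (starRingEnd ℂ (ψ (j + t1)) * ψ j *
        (starRingEnd ℂ (ψ (k + (x1 + y1 - t1))) * ψ k)) *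
        (e ((x2 + y2) * k - t1 * y2) * e (t2 * (t1 - x1 + j - k))) := by
    intro t1 t2
    unfold c
    rw [Finset.sum_mul_sum, Finset.mul_sum]
    refine Finset.sum_congr rfl fun j _ => ?_
    rw [Finset.mul_sum]
    refine Finset.sum_congr rfl fun k _ => ?_
    have : e (t1 * t2 - x1 * t2 - t1 * y2) * (e (t2 * j) * e ((x2 + y2 - t2) * k)) =
        e ((x2 + y2) * k - t1 * y2) * e (t2 * (t1 - x1 + j - k)) := by
      rw [← e_add, ← e_add, ← e_add]
      congr 1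
      ring
    linear_combination (starRingEnd ℂ (ψ (j + t1)) * ψ j *
        (starRingEnd ℂ (ψ (k + (x1 + y1 - t1))) * ψ k)) * this
  have h2 : ∀ t1 : ZMod d, ∑ t2 : ZMod d, e (t1 * t2 - x1 * t2 - t1 * y2) *
      (c ψ t1 t2 * c ψ (x1 + y1 - t1) (x2 + y2 - t2)) =
      d * ∑ j, (starRingEnd ℂ (ψ (j + t1)) * ψ j *
        (starRingEnd ℂ (ψ (j + y1)) * ψ (t1 - x1 + j))) *
        e ((x2 + y2) * (t1 - x1 + j) - t1 * y2) := by
    intro t1
    simp_rw [h1]
    rw [Finset.sum_comm, Finset.mul_sum]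
    refine Finset.sum_congr rfl fun j _ => ?_
    rw [Finset.sum_comm]
    simp_rw [← Finset.mul_sum, sum_e]
    rw [Finset.sum_eq_single (t1 - x1 + j)]
    · rw [if_pos (by ring)]
      have : t1 - x1 + j + (x1 + y1 - t1) = j + y1 := by ring
      rw [this]
      ring
    · intro k _ hk
      rw [if_neg (fun h => hk (sub_eq_zero.1 h).symm)]
      ring
    · intro h; exact absurd (Finset.mem_univ _) h
  simp_rw [h2]
  rw [← Finset.mul_sum]
  congr 1
  rw [Finset.sum_comm]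
  have h3 : ∀ j : ZMod d, ∑ t1 : ZMod d, (starRingEnd ℂ (ψ (j + t1)) * ψ j *
        (starRingEnd ℂ (ψ (j + y1)) * ψ (t1 - x1 + j))) *
        e ((x2 + y2) * (t1 - x1 + j) - t1 * y2) =
      ∑ i : ZMod d, (starRingEnd ℂ (ψ (i + x1)) * ψ j *
        (starRingEnd ℂ (ψ (j + y1)) * ψ i)) * e (j * y2 + i * x2 - x1 * y2) := by
    intro j
    refine Fintype.sum_equiv (Equiv.addRight (j - x1)) _ _ fun t1 => ?_
    simp only [Equiv.coe_addRight]
    have a1 : t1 + (j - x1) + x1 = j + t1 := by ring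
    have a2 : t1 + (j - x1) = t1 - x1 + j := by ring
    have a3 : j * y2 + (t1 + (j - x1)) * x2 - x1 * y2 =
      (x2 + y2) * (t1 - x1 + j) - t1 * y2 := by ring
    rw [a1, a3, a2]
  simp_rw [h3]
  unfold c
  rw [Finset.sum_mul_sum, Finset.mul_sum, Finset.sum_comm]
  refine Finset.sum_congr rfl fun i _ => ?_
  rw [Finset.mul_sum]
  refine Finset.sum_congr rfl fun j _ => ?_
  have : e (j * y2 + i * x2 - x1 * y2) = e (-(x1 * y2)) * (e (x2 * i) * e (y2 * j)) := by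
    rw [← e_add, ← e_add]
    congr 1
    ring
  rw [this]
  ring

/-! ### Integers -/

/-- `τ = - exp (π i / d)` -/
noncomputable def tau (d : ℕ) : ℂ := -Complex.exp (Real.pi * Complex.I / d)

lemma norm_tau : ‖tau d‖ = 1 := by
  unfold tau
  rw [norm_neg, show (Real.pi : ℂ) * Complex.I / d = ((Real.pi / d : ℝ) : ℂ) * Complex.I by
    push_cast; ring]
  exact Complex.norm_exp_ofReal_mul_I _

lemma tau_ne : tau d ≠ 0 := by
  intro h; have := norm_tau (d := d); rw [h, norm_zero] at this; exact one_ne_zero this.symm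

lemma tau_sq (n : ℤ) : tau d ^ (2 * n) = e (n : ZMod d) := by
  have h1 : tau d ^ (2 : ℤ) = Complex.exp (2 * Real.pi * Complex.I / d) := by
    unfold tau
    rw [show (2 : ℤ) = ((2 : ℕ) : ℤ) by norm_num, zpow_natCast, neg_sq, ← Complex.exp_nat_mul]
    congr 1
    push_cast
    ring
  rw [zpow_mul, h1, ← Complex.exp_int_mul]
  unfold e
  rw [ZMod.stdAddChar_coe]
  congr 1
  ring

/-- the symmetrised overlaps -/
noncomputable def A (ψ : ZMod d → ℂ) (a b : ℤ) : ℂ := tau d ^ (a * b) * c ψ a b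

lemma norm_A (ψ : ZMod d → ℂ) (a b : ℤ) : ‖A ψ a b‖ = ‖c ψ a b‖ := by
  unfold A
  rw [norm_mul, norm_zpow, norm_tau, one_zpow, one_mul]

lemma conj_tau : starRingEnd ℂ (tau d) = (tau d)⁻¹ := by
  have h : tau d * starRingEnd ℂ (tau d) = 1 := by
    rw [Complex.mul_conj, Complex.normSq_eq_norm_sq, norm_tau]; simp
  apply eq_inv_of_mul_eq_one_left
  rw [mul_comm, h]

lemma conj_c (ψ : ZMod d → ℂ) (a b : ZMod d) :
    starRingEnd ℂ (c ψ a b) = e (a * b) * c ψ (-a) (-b) := by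
  unfold c
  rw [map_sum, Finset.mul_sum]
  refine Fintype.sum_equiv (Equiv.addRight a) _ _ fun j => ?_
  simp only [Equiv.coe_addRight, map_mul, Complex.conj_conj, conj_e]
  have a1 : j + a + -a = j := by ring
  have a2 : e (-(b * j)) = e (a * b) * e (-b * (j + a)) := by
    rw [← e_add]; congr 1; ring
  rw [a1, a2]
  ring

/-- `A(-s)` is the conjugate of `A(s)` -/
lemma conj_A (ψ : ZMod d → ℂ) (a b : ℤ) : starRingEnd ℂ (A ψ a b) = A ψ (-a) (-b) := by
  unfold A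
  rw [map_mul, map_zpow₀, conj_tau, conj_c, inv_zpow', ← Int.cast_mul, ← tau_sq]
  push_cast
  rw [← mul_assoc, ← zpow_add₀ tau_ne]
  congr 2
  ring

lemma A_mul_neg (ψ : ZMod d → ℂ) (a b : ℤ) :
    A ψ a b * A ψ (-a) (-b) = ((‖A ψ a b‖ ^ 2 : ℝ) : ℂ) := by
  rw [← conj_A, Complex.mul_conj, Complex.normSq_eq_norm_sq]

/-- a summand, in terms of residues -/
lemma summand (ψ : ZMod d → ℂ) (x1 x2 y1 y2 t1 t2 : ℤ) :
    A ψ t1 t2 * A ψ (x1 + y1 - t1) (x2 + y2 - t2) *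
      tau d ^ (t2 * (y1 - x1) - t1 * (y2 - x2)) =
    tau d ^ ((x1 + y1) * (x2 + y2)) * (e ((t1 : ZMod d) * (t2 : ZMod d) -
      (x1 : ZMod d) * (t2 : ZMod d) - (t1 : ZMod d) * (y2 : ZMod d)) *
      (c ψ (t1 : ZMod d) (t2 : ZMod d) * c ψ ((x1 : ZMod d) + (y1 : ZMod d) - (t1 : ZMod d))
        ((x2 : ZMod d) + (y2 : ZMod d) - (t2 : ZMod d)))) := by
  have h : e ((t1 : ZMod d) * (t2 : ZMod d) - (x1 : ZMod d) * (t2 : ZMod d) -
      (t1 : ZMod d) * (y2 : ZMod d)) =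
      tau d ^ (2 * (t1 * t2 - x1 * t2 - t1 * y2)) := by
    rw [tau_sq]; push_cast; rfl
  rw [h]
  unfold A
  push_cast
  have h2 : tau d ^ ((x1 + y1) * (x2 + y2)) * tau d ^ (2 * (t1 * t2 - x1 * t2 - t1 * y2)) =
      tau d ^ (t1 * t2) * tau d ^ ((x1 + y1 - t1) * (x2 + y2 - t2)) *
        tau d ^ (t2 * (y1 - x1) - t1 * (y2 - x2)) := by
    rw [← zpow_add₀ tau_ne, ← zpow_add₀ tau_ne, ← zpow_add₀ tau_ne]
    congr 1
    ring
  linear_combination -(c ψ (t1 : ZMod d) (t2 : ZMod d) *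
    c ψ ((x1 : ZMod d) + (y1 : ZMod d) - (t1 : ZMod d))
        ((x2 : ZMod d) + (y2 : ZMod d) - (t2 : ZMod d))) * h2

/-- **The product identity**, for a bijection `f` of the pairs of residues with a lift. -/
theorem star_A (ψ : ZMod d → ℂ) (x1 x2 y1 y2 : ℤ) (f : ZMod d × ZMod d → ℤ × ℤ)
    (hf : Function.Bijective fun t => (((f t).1 : ZMod d), ((f t).2 : ZMod d))) :
    ∑ t : ZMod d × ZMod d, A ψ (f t).1 (f t).2 * A ψ (x1 + y1 - (f t).1) (x2 + y2 - (f t).2) *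
      tau d ^ ((f t).2 * (y1 - x1) - (f t).1 * (y2 - x2)) =
    d * (tau d ^ (x2 * y1 - x1 * y2) * (A ψ x1 x2 * A ψ y1 y2)) := by
  simp_rw [summand]
  rw [← Finset.mul_sum]
  have h1 : ∑ t : ZMod d × ZMod d, e ((((f t).1 : ℤ) : ZMod d) * (((f t).2 : ℤ) : ZMod d) -
        (x1 : ZMod d) * (((f t).2 : ℤ) : ZMod d) - (((f t).1 : ℤ) : ZMod d) * (y2 : ZMod d)) *
      (c ψ (((f t).1 : ℤ) : ZMod d) (((f t).2 : ℤ) : ZMod d) *
        c ψ ((x1 : ZMod d) + (y1 : ZMod d) - (((f t).1 : ℤ) : ZMod d))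
          ((x2 : ZMod d) + (y2 : ZMod d) - (((f t).2 : ℤ) : ZMod d))) =
      d * (e (-((x1 : ZMod d) * (y2 : ZMod d))) *
        (c ψ (x1 : ZMod d) (x2 : ZMod d) * c ψ (y1 : ZMod d) (y2 : ZMod d))) := by
    rw [← star_c, ← Fintype.sum_prod_type']
    exact Fintype.sum_bijective _ hf _ _ fun t => rfl
  rw [h1]
  have h2 : e (-((x1 : ZMod d) * (y2 : ZMod d))) = tau d ^ (2 * (-(x1 * y2))) := by
    rw [tau_sq]; push_cast; rfl
  rw [h2]
  unfold A
  have h3 : tau d ^ ((x1 + y1) * (x2 + y2)) * tau d ^ (2 * (-(x1 * y2))) =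
      tau d ^ (x2 * y1 - x1 * y2) * (tau d ^ (x1 * x2) * tau d ^ (y1 * y2)) := by
    rw [← zpow_add₀ tau_ne, ← zpow_add₀ tau_ne, ← zpow_add₀ tau_ne]
    congr 1
    ring
  linear_combination (d * (c ψ (x1 : ZMod d) (x2 : ZMod d) *
    c ψ (y1 : ZMod d) (y2 : ZMod d))) * h3

end Pool.Agent.K3h59.SICF
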