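import Pool.Agent.K3h59.SICF.Rigid

/-!
# The fields generated by overlaps
-/

set_option autoImplicit false
set_option linter.unusedSectionVars false

namespace Pool.Agent.K3h59.SICF

open Finset IntermediateField

variable {d : ℕ} [NeZero d]

/-- an algebraic element which is fixed by all embeddings -/
lemma mem_of_fixed {K : Type*} [Field K] [Algebra K ℂ] [CharZero K] (E : IntermediateField K ℂ)
    [Algebra.IsAlgebraic K E] (x : E) (h : ∀ φ : E →ₐ[K] ℂ, φ x = x) :
    (x : ℂ) ∈ (algebraMap K ℂ).range := by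
  by_contra hx
  have hint : IsIntegral K (x : ℂ) := by
    have : IsIntegral K x := Algebra.IsIntegral.isIntegral x
    exact this.map E.val
  have hx' : (x : ℂ) ∉ (⊥ : Subalgebra K ℂ) := by
    rw [Algebra.mem_bot]
    exact hx
  obtain ⟨y, hy, hc⟩ := (notMem_iff_exists_ne_and_isConjRoot
    (minpoly.irreducible hint).separable (IsAlgClosed.splits _)).1 hx'
  have h1 : Polynomial.aeval y (minpoly K x) = 0 := by
    rw [IntermediateField.minpoly_eq x, hc]
    exact minpoly.aeval K y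
  obtain ⟨φ, hφ⟩ := IntermediateField.exists_algHom_of_splits_of_aeval (K := ℂ)
    (fun s => ⟨Algebra.IsIntegral.isIntegral s, IsAlgClosed.splits _⟩) h1
  exact hy (by rw [← hφ, h])

lemma tau_integral {K : Type*} [Field K] [Algebra K ℂ] : IsIntegral K (tau d) := by
  have h : IsIntegral K ((tau d) ^ (2 * d)) := by
    have : (tau d) ^ (2 * d) = 1 := by
      rw [mul_comm, pow_mul, tau_pow_d, ← pow_mul]
      exact Even.neg_one_pow ⟨d + 1, by ring⟩
    rw [this]
    exact isIntegral_one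
  exact IsIntegral.of_pow (by have := NeZero.pos d; omega) h

/-- **The overlaps generate the real cyclotomic field.** -/
theorem cos_mem (hd : 2 ≤ d) {ψ : ZMod d → ℂ} (hψ : Fid ψ) {K : Subfield ℂ}
    (hK : ∀ a b : ℤ, A ψ a b ∈ K) : tau d + (tau d)⁻¹ ∈ K := by
  have hint : IsIntegral K (tau d) := tau_integral
  have halg : Algebra.IsAlgebraic K K⟮tau d⟯ := IntermediateField.isAlgebraic_adjoin_simple hint
  set g : K⟮tau d⟯ := AdjoinSimple.gen K (tau d) with hg
  have hgv : ((g : K⟮tau d⟯) : ℂ) = tau d := rfl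
  have h := mem_of_fixed K⟮tau d⟯ (g + g⁻¹) (by
    intro φ
    have hlike := like_map hψ (algebraMap K⟮tau d⟯ ℂ) (φ : K⟮tau d⟯ →+* ℂ)
      (fun i j => algebraMap K K⟮tau d⟯ ⟨A ψ i j, hK i j⟩) (fun i j => rfl) g rfl
    have hc := core (p := 1) (q := 0) (r := 0) (s := 1) (u := 0) (v := 0) hd hlike hψ (by
      intro a b
      simp only [RingHom.coe_coe, AlgHom.commutes]
      rw [show 2 * (0 * a + 0 * b) = (0 : ℤ) by ring, zpow_zero, one_mul,
        show 1 * a + 0 * b = a by ring, show 0 * a + 1 * b = b by ring]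
      rfl)
    rw [show (1 : ℤ) * 1 - 0 * 0 = 1 by norm_num, zpow_one] at hc
    have e1 : ((g + g⁻¹ : K⟮tau d⟯) : ℂ) = tau d + (tau d)⁻¹ := by
      push_cast; rw [hgv]
    rw [e1, map_add, map_inv₀]
    rcases hc with hc | hc
    · have : φ g = tau d := hc.symm
      rw [this]
    · have h2 : tau d = (φ g)⁻¹ := hc
      have : φ g = (tau d)⁻¹ := by
        have h3 := congrArg (fun z => z⁻¹) h2
        simp only [inv_inv] at h3
        exact h3.symm
      rw [this, inv_inv, add_comm])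
  obtain ⟨z, hz⟩ := h
  have e1 : ((g + g⁻¹ : K⟮tau d⟯) : ℂ) = tau d + (tau d)⁻¹ := by
    push_cast; rw [hgv]
  rw [e1] at hz
  rw [← hz]
  exact z.2

lemma A_one {ψ : ZMod d → ℂ} (hψ : Fid ψ) {a b : ℤ} (ha : (d : ℤ) ∣ a) (hb : (d : ℤ) ∣ b) :
    A ψ a b = 1 := by
  unfold A
  rw [(cast_zero_iff a).2 ha, (cast_zero_iff b).2 hb, c_zero hψ, mul_one]
  obtain ⟨x, hx⟩ := ha
  obtain ⟨y, hy⟩ := hb
  rw [hx, hy, show (d : ℤ) * x * (d * y) = d * (d * (x * y)) by ring, zpow_mul, zpow_natCast,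
    tau_pow_d, ← zpow_natCast, ← zpow_mul]
  have : Even ((d : ℤ) * (d + 1)) := Int.even_mul_succ_self d
  apply Even.neg_one_zpow
  obtain ⟨z, hz⟩ := this
  exact ⟨z * (x * y), by push_cast; linear_combination (x * y) * hz⟩

lemma A_ne_zero {ψ : ZMod d → ℂ} (hψ : Fid ψ) (a b : ℤ) : A ψ a b ≠ 0 := by
  intro h
  by_cases hab : (d : ℤ) ∣ a ∧ (d : ℤ) ∣ b
  · have := norm_A_zero hψ hab.1 hab.2
    rw [h, norm_zero] at this; norm_num at this
  · have := norm_A_ne hψ hab
    rw [h, norm_zero] at this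
    have h2 : (0 : ℝ) < 1 / ((d : ℝ) + 1) := by positivity
    rw [← this] at h2; norm_num at h2

/-- the sign of all the overlaps cannot be changed -/
theorem no_sign (hd : 7 ≤ d) {B : ℤ → ℤ → ℂ} {τ' : ℂ} (hB : Like d B τ') {ψ : ZMod d → ℂ}
    (hψ : Fid ψ) (h0 : B 0 0 = 1)
    (hs : ∀ a b : ℤ, ¬ ((d : ℤ) ∣ a ∧ (d : ℤ) ∣ b) → B a b = -A ψ a b) : False := by
  have hd7 : (7 : ℝ) ≤ d := by exact_mod_cast hd
  obtain ⟨k, hk, hτ'⟩ := exists_odd hB.root
  have hndvd : ¬ (d : ℤ) ∣ 1 := by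
    intro h
    have := Int.le_of_dvd one_pos h
    omega
  have hid := hB.idem 1 0
  -- the sum of the products of the overlaps
  set S : ℂ := ∑ t : ZMod d × ZMod d, A ψ t.1.val t.2.val * A ψ (1 - t.1.val) (0 - t.2.val) *
    τ' ^ ((t.2.val : ℤ) * 1 - t.1.val * 0) with hS
  have h10 : ¬ ((d : ℤ) ∣ (1 : ℤ) ∧ (d : ℤ) ∣ (0 : ℤ)) := fun h => hndvd h.1
  have hn1 : ‖A ψ 1 0‖ ^ 2 = 1 / ((d : ℝ) + 1) := norm_A_ne hψ h10
  have hv1 : ((1 : ZMod d).val : ℤ) = 1 := by
    have : Fact (1 < d) := ⟨by omega⟩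
    rw [ZMod.val_one]; rfl
  -- comparison with the sum for `B`
  have h1 : ∑ t : ZMod d × ZMod d, B t.1.val t.2.val * B (1 - t.1.val) (0 - t.2.val) *
      τ' ^ ((t.2.val : ℤ) * 1 - t.1.val * 0) = S - 4 * A ψ 1 0 := by
    have h2 : ∀ t : ZMod d × ZMod d, B t.1.val t.2.val * B (1 - t.1.val) (0 - t.2.val) *
        τ' ^ ((t.2.val : ℤ) * 1 - t.1.val * 0) =
        A ψ t.1.val t.2.val * A ψ (1 - t.1.val) (0 - t.2.val) *
          τ' ^ ((t.2.val : ℤ) * 1 - t.1.val * 0) +
        ((if t = (0, 0) then -2 * A ψ 1 0 else 0) + (if t = (1, 0) then -2 * A ψ 1 0 else 0)) := by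
      intro t
      by_cases ht0 : t = (0, 0)
      · have hne : ¬ t = (1, 0) := by
          rw [ht0]; intro h
          have h3 := (Prod.mk.injEq _ _ _ _ ▸ h : (0 : ZMod d) = 1 ∧ (0 : ZMod d) = 0).1
          have h4 := congrArg (fun z : ZMod d => (z.val : ℤ)) h3
          simp only [ZMod.val_zero] at h4
          rw [hv1] at h4
          norm_num at h4
        rw [if_pos ht0, if_neg hne, ht0]
        simp only [ZMod.val_zero, Nat.cast_zero, sub_zero, mul_zero, zpow_zero, mul_one,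
          add_zero]
        rw [h0, A_zero hψ, hs 1 0 h10]
        ring
      · by_cases ht1 : t = (1, 0)
        · rw [if_neg ht0, if_pos ht1, ht1]
          simp only [ZMod.val_zero, Nat.cast_zero, sub_zero, mul_zero, zpow_zero, mul_one]
          rw [hv1, show (1 : ℤ) - 1 = 0 by norm_num, h0, A_zero hψ, hs 1 0 h10]
          ring
        · rw [if_neg ht0, if_neg ht1]
          have h3 : ¬ ((d : ℤ) ∣ (t.1.val : ℤ) ∧ (d : ℤ) ∣ (t.2.val : ℤ)) := by
            rintro ⟨h4, h5⟩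
            apply ht0
            rw [← cast_zero_iff] at h4 h5
            refine Prod.ext ?_ ?_
            · simpa using h4
            · simpa using h5
          have h4 : ¬ ((d : ℤ) ∣ (1 - t.1.val : ℤ) ∧ (d : ℤ) ∣ (0 - t.2.val : ℤ)) := by
            rintro ⟨h4, h5⟩
            apply ht1
            rw [← cast_zero_iff] at h4 h5
            refine Prod.ext ?_ ?_
            · have : (1 : ZMod d) - t.1 = 0 := by simpa using h4
              exact (sub_eq_zero.1 this).symm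
            · simpa using h5
          rw [hs _ _ h3, hs _ _ h4]
          ring
    rw [Finset.sum_congr rfl fun t _ => h2 t, Finset.sum_add_distrib, Finset.sum_add_distrib,
      Finset.sum_ite_eq' , Finset.sum_ite_eq', if_pos (Finset.mem_univ _),
      if_pos (Finset.mem_univ _), ← hS]
    ring
  rw [h1, hs 1 0 h10] at hid
  have hSeq : S = -((d : ℂ) - 4) * A ψ 1 0 := by linear_combination hid
  have hSn : ‖S‖ ^ 2 = ((d : ℝ) - 4) ^ 2 * (1 / ((d : ℝ) + 1)) := by
    rw [hSeq, norm_mul, mul_pow, hn1, norm_neg,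
      show ((d : ℂ) - 4) = (((d : ℝ) - 4 : ℝ) : ℂ) by push_cast; rfl, Complex.norm_real,
      Real.norm_eq_abs, sq_abs]
  -- the value of `S` from the product identity
  have hval : Function.Bijective fun t : ZMod d × ZMod d =>
      ((((t.1.val : ℤ), (t.2.val : ℤ)).1 : ZMod d), ((((t.1.val : ℤ), (t.2.val : ℤ)).2 : ℤ) :
        ZMod d)) := by
    have : (fun t : ZMod d × ZMod d => ((((t.1.val : ℤ), (t.2.val : ℤ)).1 : ZMod d),
        ((((t.1.val : ℤ), (t.2.val : ℤ)).2 : ℤ) : ZMod d))) = id := by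
      funext t; simp
    rw [this]; exact Function.bijective_id
  obtain ⟨m, hm⟩ := hk
  have hstar : ∀ n : ℤ, τ' = tau d ^ (2 * n + 1) →
      S = d * (A ψ (-n) 0 * A ψ (n + 1) 0) := by
    intro n hn
    have h := star_A ψ (-n) 0 (n + 1) 0 (fun t => ((t.1.val : ℤ), (t.2.val : ℤ))) hval
    rw [show (0 : ℤ) * (n + 1) - -n * 0 = 0 by ring, zpow_zero, one_mul] at h
    rw [← h, hS]
    refine Finset.sum_congr rfl fun t _ => ?_
    rw [show -n + (n + 1) - (t.1.val : ℤ) = 1 - t.1.val by ring,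
      show (0 : ℤ) + 0 - (t.2.val : ℤ) = 0 - t.2.val by ring, hn, ← zpow_mul]
    congr 2
    ring
  have hfinal : ∀ n : ℤ, τ' = tau d ^ (2 * n + 1) → (d : ℤ) ∣ n → False := by
    intro n hn hdn
    have hn' : τ' = tau d ^ (2 * 0 + 1 : ℤ) := by
      rw [hn, zpow_add₀ tau_ne, tau_two_dvd hdn]; simp
    have h := hstar 0 hn'
    rw [neg_zero, zero_add, A_zero hψ, one_mul] at h
    rw [h, norm_mul, mul_pow, hn1, Complex.norm_natCast] at hSn
    have h2 : (0 : ℝ) < 1 / ((d : ℝ) + 1) := by positivity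
    have h3 := mul_right_cancel₀ h2.ne' hSn
    nlinarith
  by_cases hm1 : (d : ℤ) ∣ m
  · exact hfinal m (by rw [hτ', hm]) hm1
  by_cases hm2 : (d : ℤ) ∣ m + 1
  · have hn' : τ' = tau d ^ (2 * (-1) + 1 : ℤ) := by
      rw [hτ', hm, show 2 * m + 1 = 2 * (m + 1) + (2 * (-1) + 1) by ring, zpow_add₀ tau_ne,
        tau_two_dvd hm2, one_mul]
    have h := hstar (-1) hn'
    rw [neg_neg, neg_add_cancel, A_zero hψ, mul_one] at h
    rw [h, norm_mul, mul_pow, hn1, Complex.norm_natCast] at hSn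
    have h2 : (0 : ℝ) < 1 / ((d : ℝ) + 1) := by positivity
    have h3 := mul_right_cancel₀ h2.ne' hSn
    nlinarith
  have h := hstar m (by rw [hτ', hm])
  have e1 : ‖A ψ (-m) 0‖ ^ 2 = 1 / ((d : ℝ) + 1) :=
    norm_A_ne hψ fun h => hm1 ((dvd_neg).1 h.1)
  have e2 : ‖A ψ (m + 1) 0‖ ^ 2 = 1 / ((d : ℝ) + 1) := norm_A_ne hψ fun h => hm2 h.1
  rw [h, norm_mul, mul_pow, norm_mul, mul_pow, e1, e2, Complex.norm_natCast] at hSn
  have hpos : (0 : ℝ) < (d : ℝ) + 1 := by linarith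
  field_simp at hSn
  nlinarith [mul_nonneg (sub_nonneg.2 hd7) (sub_nonneg.2 hd7),
    mul_nonneg (mul_nonneg (sub_nonneg.2 hd7) (sub_nonneg.2 hd7)) (sub_nonneg.2 hd7)]

end Pool.Agent.K3h59.SICF
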