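import Pool.Agent.K3h59.SICF.Field

/-!
# Ratios of overlaps, degrees
-/

set_option autoImplicit false
set_option linter.unusedSectionVars false

namespace Pool.Agent.K3h59.SICF

open Finset IntermediateField

variable {d : ℕ} [NeZero d]

/-- **The ratios of the overlaps generate the field of the overlaps.** -/
theorem ratio_mem (hd : 7 ≤ d) {ψ : ZMod d → ℂ} (hψ : Fid ψ) {K : Subfield ℂ}
    (hK : ∀ a b a' b' : ℤ, ¬ ((d : ℤ) ∣ a ∧ (d : ℤ) ∣ b) → ¬ ((d : ℤ) ∣ a' ∧ (d : ℤ) ∣ b') →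
      A ψ a b / A ψ a' b' ∈ K) (a b : ℤ) : A ψ a b ∈ K := by
  have hndvd : ¬ (d : ℤ) ∣ 1 := by
    intro h
    have := Int.le_of_dvd one_pos h
    omega
  have h10 : ¬ ((d : ℤ) ∣ (1 : ℤ) ∧ (d : ℤ) ∣ (0 : ℤ)) := fun h => hndvd h.1
  have h10' : ¬ ((d : ℤ) ∣ (-1 : ℤ) ∧ (d : ℤ) ∣ (0 : ℤ)) := fun h => hndvd ((dvd_neg).1 h.1)
  have hsq : A ψ 1 0 ^ 2 ∈ K := by
    have h1 : A ψ 1 0 * A ψ (-1) (-0) = 1 / ((d : ℂ) + 1) := (like_self hψ).mul 1 0 h10
    rw [neg_zero] at h1
    have h2 : A ψ 1 0 ^ 2 = 1 / ((d : ℂ) + 1) * (A ψ 1 0 / A ψ (-1) 0) := by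
      rw [← h1]
      field_simp [A_ne_zero hψ (-1) 0]
    rw [h2]
    exact K.mul_mem (K.div_mem K.one_mem (K.add_mem (natCast_mem K d) K.one_mem))
      (hK _ _ _ _ h10 h10')
  -- it is enough to treat `A ψ 1 0`
  suffices hA : A ψ 1 0 ∈ K by
    by_cases hab : (d : ℤ) ∣ a ∧ (d : ℤ) ∣ b
    · rw [A_one hψ hab.1 hab.2]; exact K.one_mem
    · have h2 : A ψ a b = A ψ a b / A ψ 1 0 * A ψ 1 0 := by
        rw [div_mul_cancel₀ _ (A_ne_zero hψ 1 0)]
      rw [h2]
      exact K.mul_mem (hK _ _ _ _ hab h10) hA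
  have hint1 : IsIntegral K (tau d) := tau_integral
  have hint2 : IsIntegral K (A ψ 1 0) := by
    apply IsIntegral.of_pow (n := 2) two_pos
    exact isIntegral_algebraMap (x := (⟨A ψ 1 0 ^ 2, hsq⟩ : K))
  set E : IntermediateField K ℂ := IntermediateField.adjoin K {tau d, A ψ 1 0} with hE
  have halg : Algebra.IsAlgebraic K E := by
    apply IntermediateField.isAlgebraic_adjoin
    intro x hx
    rcases hx with rfl | hx
    · exact hint1
    · rw [Set.mem_singleton_iff.1 hx]; exact hint2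
  have hm1 : tau d ∈ E := IntermediateField.subset_adjoin K _ (Set.mem_insert _ _)
  have hm2 : A ψ 1 0 ∈ E :=
    IntermediateField.subset_adjoin K _ (Set.mem_insert_of_mem _ (Set.mem_singleton _))
  set g : E := ⟨A ψ 1 0, hm2⟩ with hg
  -- the overlaps as elements of `E`
  have hmem : ∀ i j : ℤ, A ψ i j ∈ E := by
    intro i j
    by_cases hij : (d : ℤ) ∣ i ∧ (d : ℤ) ∣ j
    · rw [A_one hψ hij.1 hij.2]; exact E.one_mem
    · have h2 : A ψ i j = A ψ i j / A ψ 1 0 * A ψ 1 0 := by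
        rw [div_mul_cancel₀ _ (A_ne_zero hψ 1 0)]
      rw [h2]
      exact E.mul_mem (E.algebraMap_mem ⟨_, hK _ _ _ _ hij h10⟩) hm2
  have h := mem_of_fixed E g (by
    intro φ
    have hg2 : φ g ^ 2 = A ψ 1 0 ^ 2 := by
      have h1 : g ^ 2 = algebraMap K E ⟨A ψ 1 0 ^ 2, hsq⟩ := by
        apply Subtype.ext
        rfl
      rw [← map_pow, h1, AlgHom.commutes]
      rfl
    rcases sq_eq_sq_iff_eq_or_eq_neg.1 hg2 with h1 | h1
    · exact h1
    · exfalso
      have hlike := like_map hψ (algebraMap E ℂ) (φ : E →+* ℂ)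
        (fun i j => ⟨A ψ i j, hmem i j⟩) (fun i j => rfl) ⟨tau d, hm1⟩ rfl
      refine no_sign hd hlike hψ ?_ ?_
      · have : (⟨A ψ 0 0, hmem 0 0⟩ : E) = 1 := Subtype.ext (A_zero hψ)
        simp only [this, map_one]
      · intro i j hij
        have h2 : (⟨A ψ i j, hmem i j⟩ : E) =
            algebraMap K E ⟨A ψ i j / A ψ 1 0, hK _ _ _ _ hij h10⟩ * g := by
          apply Subtype.ext
          change A ψ i j = A ψ i j / A ψ 1 0 * A ψ 1 0
          rw [div_mul_cancel₀ _ (A_ne_zero hψ 1 0)]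
        simp only [h2, RingHom.coe_coe, map_mul, AlgHom.commutes, h1]
        change A ψ i j / A ψ 1 0 * -A ψ 1 0 = _
        rw [mul_neg, div_mul_cancel₀ _ (A_ne_zero hψ 1 0)])
  obtain ⟨z, hz⟩ := h
  have : (z : ℂ) = A ψ 1 0 := hz
  rw [← this]
  exact z.2

/-! ### Degrees -/

/-- the degree of a field which contains `2 cos (π / d)` -/
theorem totient_le {F : IntermediateField ℚ ℂ} [FiniteDimensional ℚ F]
    (h : tau d + (tau d)⁻¹ ∈ F) : Nat.totient (2 * d) ≤ 2 * Module.finrank ℚ F := by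
  have hprim := neg_tau_primitive (d := d)
  have hpos : 0 < 2 * d := by have := NeZero.pos d; omega
  have hint : IsIntegral F (-tau d) := (tau_integral (K := F)).neg
  have hfin : FiniteDimensional F F⟮-tau d⟯ := IntermediateField.adjoin.finiteDimensional hint
  have h1 : Module.finrank F F⟮-tau d⟯ ≤ 2 := by
    rw [IntermediateField.adjoin.finrank hint]
    set p : Polynomial F := Polynomial.X ^ 2 + Polynomial.C ⟨_, h⟩ * Polynomial.X + 1 with hp
    have hdeg : p.natDegree = 2 := by rw [hp]; compute_degree!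
    have hp0 : p ≠ 0 := by intro h0; rw [h0] at hdeg; simp at hdeg
    rw [← hdeg]
    refine Polynomial.natDegree_le_of_dvd (minpoly.dvd F _ ?_) hp0
    rw [hp]
    simp only [map_add, map_mul, map_pow, Polynomial.aeval_X, Polynomial.aeval_C, map_one]
    change (-tau d) ^ 2 + (tau d + (tau d)⁻¹) * (-tau d) + 1 = 0
    have := tau_ne (d := d)
    field_simp
    ring
  have h2 := Module.finrank_mul_finrank ℚ F F⟮-tau d⟯
  have h3 : Nat.totient (2 * d) ≤ Module.finrank ℚ F⟮-tau d⟯ := by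
    have : FiniteDimensional ℚ F⟮-tau d⟯ := FiniteDimensional.trans ℚ F F⟮-tau d⟯
    rw [← Polynomial.natDegree_cyclotomic (2 * d) ℚ, Polynomial.cyclotomic_eq_minpoly_rat hprim hpos]
    have e1 : minpoly ℚ (-tau d) = minpoly ℚ (AdjoinSimple.gen F (-tau d)) :=
      minpoly.algebraMap_eq (B' := ℂ) (algebraMap F⟮-tau d⟯ ℂ).injective
        (AdjoinSimple.gen F (-tau d))
    rw [e1]
    exact minpoly.natDegree_le _
  nlinarith

/-- the field of the real elements -/
def realField : IntermediateField ℚ ℂ where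
  carrier := {z | starRingEnd ℂ z = z}
  mul_mem' := fun {a b} ha hb => by
    simp only [Set.mem_ofPred_eq] at *; rw [map_mul, ha, hb]
  add_mem' := fun {a b} ha hb => by
    simp only [Set.mem_ofPred_eq] at *; rw [map_add, ha, hb]
  algebraMap_mem' := fun r => by simp
  inv_mem' := fun a ha => by
    simp only [Set.mem_ofPred_eq] at *; rw [map_inv₀, ha]

theorem totient_le' {F : IntermediateField ℚ ℂ} [FiniteDimensional ℚ F]
    (h : tau d + (tau d)⁻¹ ∈ F) {z : ℂ} (hz : z ∈ F) (hz' : starRingEnd ℂ z ≠ z) :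
    Nat.totient (2 * d) ≤ Module.finrank ℚ F := by
  set R : IntermediateField ℚ ℂ := F ⊓ realField with hR
  have hle : R ≤ F := inf_le_left
  have hfR : FiniteDimensional ℚ R :=
    FiniteDimensional.of_injective (IntermediateField.inclusion hle).toLinearMap
      (IntermediateField.inclusion hle).injective
  have hθ : tau d + (tau d)⁻¹ ∈ R := by
    refine ⟨h, ?_⟩
    change starRingEnd ℂ (tau d + (tau d)⁻¹) = _
    rw [map_add, map_inv₀, conj_tau, inv_inv, add_comm]
  have h1 := totient_le hθ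
  have hdvd : Module.finrank ℚ R ∣ Module.finrank ℚ F :=
    IntermediateField.finrank_dvd_of_le_right hle
  obtain ⟨m, hm⟩ := hdvd
  have hpos : 0 < Module.finrank ℚ F := Module.finrank_pos
  have hm0 : m ≠ 0 := by rintro rfl; rw [mul_zero] at hm; omega
  have hm1 : m ≠ 1 := by
    rintro rfl
    rw [mul_one] at hm
    have := IntermediateField.eq_of_le_of_finrank_le hle hm.le
    rw [← this] at hz
    exact hz' hz.2
  have : 2 ≤ m := by omega
  rw [hm]
  nlinarith

end Pool.Agent.K3h59.SICF
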