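import Pool.Agent.K3h59.SICF.Field2
import Pool.Agent.Results.MP_1c78a5_mp.ParitySymmetry

/-!
# Real overlaps, the growth of the degree, exceptional sets
-/

set_option autoImplicit false
set_option linter.unusedSectionVars false

namespace Pool.Agent.K3h59.SICF

open Finset IntermediateField

/-! ### The totient function -/

lemma totient_sq (n : ℕ) : n ≠ 0 → (Odd n → n ≤ Nat.totient n ^ 2) ∧ n ≤ 2 * Nat.totient n ^ 2 := by
  induction n using Nat.recOnPosPrimePosCoprime with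
  | zero => intro h; exact absurd rfl h
  | one => intro _; simp
  | prime_pow p k hp hk =>
    intro _
    obtain ⟨j, rfl⟩ : ∃ j, k = j + 1 := ⟨k - 1, by omega⟩
    rw [Nat.totient_prime_pow_succ hp]
    have hp2 := hp.two_le
    rcases eq_or_lt_of_le hp2 with h2 | h3
    · subst h2
      have h4 : 2 ^ (j + 1) ≤ 2 * (2 ^ j * (2 - 1)) ^ 2 := by
        have : 1 ≤ 2 ^ j := Nat.one_le_two_pow
        rw [pow_succ]
        norm_num
        nlinarith
      refine ⟨fun hodd => ?_, h4⟩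
      exfalso
      have h5 : Even (2 ^ (j + 1)) := (even_two).pow_of_ne_zero (by omega)
      exact (Nat.not_odd_iff_even.2 h5) hodd
    · obtain ⟨m, rfl⟩ : ∃ m, p = m + 1 := ⟨p - 1, by omega⟩
      have hm : 2 ≤ m := by omega
      have h4 : (m + 1) ^ (j + 1) ≤ ((m + 1) ^ j * (m + 1 - 1)) ^ 2 := by
        have h5 : 1 ≤ (m + 1) ^ j := Nat.one_le_pow _ _ (by omega)
        rw [Nat.add_sub_cancel, pow_succ, mul_pow, pow_two ((m + 1) ^ j), mul_assoc]
        refine Nat.mul_le_mul_left _ ?_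
        calc m + 1 ≤ m ^ 2 := by nlinarith
          _ = 1 * m ^ 2 := (one_mul _).symm
          _ ≤ (m + 1) ^ j * m ^ 2 := Nat.mul_le_mul_right _ h5
      exact ⟨fun _ => h4, by nlinarith⟩
  | coprime a b ha hb hab iha ihb =>
    intro _
    obtain ⟨ha1, ha2⟩ := iha (by omega)
    obtain ⟨hb1, hb2⟩ := ihb (by omega)
    rw [Nat.totient_mul hab]
    refine ⟨fun h => ?_, ?_⟩
    · obtain ⟨hoa, hob⟩ := Nat.odd_mul.1 h
      calc a * b ≤ Nat.totient a ^ 2 * Nat.totient b ^ 2 := Nat.mul_le_mul (ha1 hoa) (hb1 hob)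
        _ = _ := by ring
    · rcases Nat.even_or_odd a with h | h
      · have hob : Odd b := by
          by_contra h1
          rw [Nat.not_odd_iff_even] at h1
          have := Nat.dvd_gcd h.two_dvd h1.two_dvd
          rw [hab.gcd_eq_one] at this
          omega
        calc a * b ≤ (2 * Nat.totient a ^ 2) * Nat.totient b ^ 2 := Nat.mul_le_mul ha2 (hb1 hob)
          _ = _ := by ring
      · calc a * b ≤ Nat.totient a ^ 2 * (2 * Nat.totient b ^ 2) := Nat.mul_le_mul (ha1 h) hb2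
          _ = _ := by ring

lemma le_totient_sq {d : ℕ} (hd : d ≠ 0) : d ≤ Nat.totient (2 * d) ^ 2 := by
  have := (totient_sq (2 * d) (by omega)).2
  omega

variable {d : ℕ} [NeZero d]

/-! ### Real overlaps -/

lemma c_eq_ip (ψ : ZMod d → ℂ) (a b : ZMod d) :
    Results.MP_1c78a5_mp.ParitySymmetry.ip ψ (Results.MP_1c78a5_mp.ParitySymmetry.D a b ψ) =
      c ψ a b := by
  rw [Results.MP_1c78a5_mp.ParitySymmetry.ip_D]
  unfold c e
  refine Fintype.sum_equiv (Equiv.subRight a) _ _ fun j => ?_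
  simp only [Equiv.subRight_apply]
  rw [sub_add_cancel]
  ring

lemma c_inv (ψ : ZMod d → ℂ) (a j : ZMod d) :
    ∑ b, c ψ a b * e (-(b * j)) = d * (starRingEnd ℂ (ψ (j + a)) * ψ j) := by
  unfold c
  simp_rw [Finset.sum_mul]
  rw [Finset.sum_comm]
  have h : ∀ i : ZMod d, ∑ b, starRingEnd ℂ (ψ (i + a)) * ψ i * e (b * i) * e (-(b * j)) =
      starRingEnd ℂ (ψ (i + a)) * ψ i * (if i - j = 0 then (d : ℂ) else 0) := by
    intro i
    rw [← sum_e, Finset.mul_sum]
    refine Finset.sum_congr rfl fun b _ => ?_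
    rw [mul_assoc, ← e_add]
    congr 2
    ring
  simp_rw [h]
  rw [Finset.sum_eq_single j]
  · rw [if_pos (sub_self j)]; ring
  · intro i _ hi
    rw [if_neg (fun h => hi (sub_eq_zero.1 h)), mul_zero]
  · intro h; exact absurd (Finset.mem_univ _) h

/-- real overlaps occur only in exceptional dimensions -/
theorem real_case (hd : 4 ≤ d) {ψ : ZMod d → ℂ} (hψ : Fid ψ)
    (hr : ∀ a b : ℤ, starRingEnd ℂ (A ψ a b) = A ψ a b) : d = 8 ∨ d = 24 ∨ d = 48 := by
  have h1 : ∀ a b : ZMod d, c ψ (-a) (-b) = c ψ a b := by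
    intro a b
    have h2 := hr a.val b.val
    rw [conj_A] at h2
    unfold A at h2
    rw [show -(a.val : ℤ) * -(b.val : ℤ) = (a.val : ℤ) * b.val by ring] at h2
    have h3 := mul_left_cancel₀ (zpow_ne_zero _ tau_ne) h2
    simpa using h3
  have h2 : ∀ i j : ZMod d, starRingEnd ℂ (ψ (-i)) * ψ (-j) = starRingEnd ℂ (ψ i) * ψ j := by
    intro i j
    have hd0 : (d : ℂ) ≠ 0 := by exact_mod_cast NeZero.ne d
    have h3 := c_inv ψ (i - j) j
    have h4 := c_inv ψ (-(i - j)) (-j)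
    rw [show -j + -(i - j) = -i by ring] at h4
    rw [show j + (i - j) = i by ring] at h3
    have h5 : ∑ b, c ψ (-(i - j)) b * e (-(b * -j)) = ∑ b, c ψ (i - j) b * e (-(b * j)) := by
      rw [← Equiv.sum_comp (Equiv.neg (ZMod d))]
      refine Finset.sum_congr rfl fun b _ => ?_
      simp only [Equiv.neg_apply]
      rw [h1]
      congr 2
      ring
    rw [h5, h3] at h4
    exact (mul_left_cancel₀ hd0 h4).symm
  have hfid : Results.MP_1c78a5_mp.ParitySymmetry.IsSICFiducial ψ := by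
    constructor
    · unfold Results.MP_1c78a5_mp.ParitySymmetry.ip
      have : ∀ j : ZMod d, starRingEnd ℂ (ψ j) * ψ j = ((‖ψ j‖ ^ 2 : ℝ) : ℂ) := by
        intro j
        rw [mul_comm, Complex.mul_conj, Complex.normSq_eq_norm_sq]
      simp_rw [this]
      rw [← Complex.ofReal_sum, hψ.1, Complex.ofReal_one]
    · intro a b hab
      rw [c_eq_ip]
      exact hψ.2 a b hab
  obtain ⟨i, hi⟩ : ∃ i, ψ i ≠ 0 := by
    by_contra h
    push Not at h
    have := hψ.1
    simp [h] at this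
  have hi' : ψ (-i) ≠ 0 := by
    intro h
    have := h2 i i
    rw [h, mul_zero] at this
    exact hi (by
      rcases mul_eq_zero.1 this.symm with h3 | h3
      · simpa using h3
      · exact h3)
  have hci : starRingEnd ℂ (ψ (-i)) ≠ 0 := by simpa using hi'
  refine Results.MP_1c78a5_mp.ParitySymmetry.part1 hd ψ hfid
    (starRingEnd ℂ (ψ i) / starRingEnd ℂ (ψ (-i))) ?_
  funext j
  change ψ (-j) = starRingEnd ℂ (ψ i) / starRingEnd ℂ (ψ (-i)) * ψ j
  field_simp
  linear_combination h2 i j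

/-! ### Exceptional sets -/

lemma card_mul_zero {m : ZMod d} (hm : m ≠ 0) :
    2 * (univ.filter fun x : ZMod d => m * x = 0).card ≤ d := by
  set S := univ.filter fun x : ZMod d => m * x = 0 with hS
  have h1 : Disjoint S (S.image fun x => x + 1) := by
    rw [Finset.disjoint_left]
    intro x hx hx'
    rw [Finset.mem_image] at hx'
    obtain ⟨y, hy, rfl⟩ := hx'
    rw [hS, Finset.mem_filter] at hx hy
    apply hm
    have := hx.2
    rw [mul_add, hy.2, zero_add, mul_one] at this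
    exact this
  have h2 : (S ∪ S.image fun x => x + 1).card ≤ d := by
    calc _ ≤ (univ : Finset (ZMod d)).card := Finset.card_le_univ _
      _ = d := by rw [Finset.card_univ, ZMod.card]
  rw [Finset.card_union_of_disjoint h1,
    Finset.card_image_of_injective _ (add_left_injective 1)] at h2
  omega

/-- **Robust form.** -/
theorem robust {B : ℤ → ℤ → ℂ} {τ' : ℂ} (hB : Like d B τ') (hBn : ∀ a b : ℤ,
      ¬ ((d : ℤ) ∣ a ∧ (d : ℤ) ∣ b) → ‖B a b‖ ^ 2 = 1 / ((d : ℝ) + 1))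
    (hB0 : ∀ a b : ℤ, (d : ℤ) ∣ a → (d : ℤ) ∣ b → B a b = 1) {ψ : ZMod d → ℂ}
    (hψ : Fid ψ) {p q r s : ℤ} (hcop : IsCoprime (p * s - q * r) (d : ℤ))
    (hne : tau d ^ (p * s - q * r) ≠ τ') (hne' : tau d ^ (p * s - q * r) ≠ τ'⁻¹)
    (E : Finset (ZMod d × ZMod d))
    (hE : ∀ a b : ℤ, ((a : ZMod d), (b : ZMod d)) ∉ E →
      B a b = A ψ (p * a + q * b) (r * a + s * b)) :
    d * (Real.sqrt (d + 1) - 1) ≤ 4 * (E.card : ℝ) := by
  set D := p * s - q * r with hD
  obtain ⟨k, hk, hτ'⟩ := exists_odd hB.root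
  obtain ⟨e₀, he₀, he₁⟩ := exists_inv hcop
  obtain ⟨m, hm⟩ := hk.mul he₀
  have hfin : tau d ^ ((2 * m + 1) * D) = τ' := by
    rw [← hm, show k * e₀ * D = (e₀ * D) * k by ring, zpow_mul, he₁, hτ']
  have hm1 : ¬ (d : ℤ) ∣ m := by
    intro h
    apply hne
    rw [← hfin, zpow_mul, zpow_add₀ tau_ne, tau_two_dvd h, one_mul, zpow_one]
  have hm2 : ¬ (d : ℤ) ∣ m + 1 := by
    intro h
    apply hne'
    rw [← hfin, zpow_mul, show 2 * m + 1 = 2 * (m + 1) + (-1) by ring, zpow_add₀ tau_ne,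
      tau_two_dvd h, one_mul, zpow_neg_one, inv_zpow, inv_inv]
  -- the matrix modulo `d`
  have hdet : IsUnit ((D : ℤ) : ZMod d) := by
    obtain ⟨x, y, hxy⟩ := hcop
    refine IsUnit.of_mul_eq_one ((x : ℤ) : ZMod d) ?_
    have := congrArg (fun z : ℤ => (z : ZMod d)) hxy
    push_cast at this
    rw [ZMod.natCast_self, mul_zero, add_zero] at this
    rw [mul_comm]
    exact this
  set F : ZMod d × ZMod d → ZMod d × ZMod d := fun t => (p * t.1 + q * t.2, r * t.1 + s * t.2)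
    with hF
  have hFinj : Function.Injective F := by
    intro t t' h
    simp only [hF, Prod.mk.injEq] at h
    obtain ⟨h1, h2⟩ := h
    have e1 : ((D : ℤ) : ZMod d) * (t.1 - t'.1) = 0 := by
      rw [hD]; push_cast
      linear_combination (s : ZMod d) * h1 - (q : ZMod d) * h2
    have e2 : ((D : ℤ) : ZMod d) * (t.2 - t'.2) = 0 := by
      rw [hD]; push_cast
      linear_combination (p : ZMod d) * h2 - (r : ZMod d) * h1
    refine Prod.ext ?_ ?_
    · exact sub_eq_zero.1 ((hdet.mul_right_eq_zero).1 e1)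
    · exact sub_eq_zero.1 ((hdet.mul_right_eq_zero).1 e2)
  have hFbij : Function.Bijective F := (Finite.injective_iff_bijective).1 hFinj
  by_contra hlt
  rw [not_le] at hlt
  have hd1 : 1 ≤ d := NeZero.pos d
  have hd2 : (1 : ℝ) ≤ d := by exact_mod_cast hd1
  have hsq : Real.sqrt ((d : ℝ) + 1) ^ 2 = d + 1 := Real.sq_sqrt (by linarith)
  have hsq0 : 0 < Real.sqrt ((d : ℝ) + 1) := Real.sqrt_pos.2 (by linarith)
  -- a good vector
  have hcard : ∃ t : ZMod d × ZMod d, t ∉ E ∧ (((m : ℤ) : ZMod d) * (F t).1 ≠ 0 ∨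
      ((m : ℤ) : ZMod d) * (F t).2 ≠ 0) ∧ ((((m + 1 : ℤ)) : ZMod d) * (F t).1 ≠ 0 ∨
      (((m + 1 : ℤ)) : ZMod d) * (F t).2 ≠ 0) := by
    by_contra hcon
    push Not at hcon
    have hm1' : ((m : ℤ) : ZMod d) ≠ 0 := fun h => hm1 ((cast_zero_iff m).1 h)
    have hm2' : (((m + 1 : ℤ)) : ZMod d) ≠ 0 := fun h => hm2 ((cast_zero_iff (m + 1)).1 h)
    have hb : ∀ n : ZMod d, n ≠ 0 →
        4 * (univ.filter fun t : ZMod d × ZMod d => n * (F t).1 = 0 ∧ n * (F t).2 = 0).card ≤
          d ^ 2 := by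
      intro n hn
      have h1 : (univ.filter fun t : ZMod d × ZMod d => n * (F t).1 = 0 ∧ n * (F t).2 = 0).card ≤
          ((univ.filter fun x : ZMod d => n * x = 0) ×ˢ
            (univ.filter fun x : ZMod d => n * x = 0)).card := by
        refine Finset.card_le_card_of_injOn F ?_ hFinj.injOn
        intro t ht
        simp only [Finset.coe_filter, Finset.mem_univ, true_and, Set.mem_ofPred_eq] at ht
        simp only [Finset.coe_product, Finset.coe_filter, Finset.mem_univ, true_and, Set.mem_prod,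
          Set.mem_ofPred_eq]
        exact ht
      rw [Finset.card_product] at h1
      have h2 := card_mul_zero hn
      nlinarith
    have hcover : (univ : Finset (ZMod d × ZMod d)) ⊆ E ∪
        ((univ.filter fun t : ZMod d × ZMod d => ((m : ℤ) : ZMod d) * (F t).1 = 0 ∧
          ((m : ℤ) : ZMod d) * (F t).2 = 0) ∪
        (univ.filter fun t : ZMod d × ZMod d => (((m + 1 : ℤ)) : ZMod d) * (F t).1 = 0 ∧
          (((m + 1 : ℤ)) : ZMod d) * (F t).2 = 0)) := by
      intro t _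
      by_cases ht : t ∈ E
      · exact Finset.mem_union_left _ ht
      · apply Finset.mem_union_right
        by_cases h1 : ((m : ℤ) : ZMod d) * (F t).1 = 0 ∧ ((m : ℤ) : ZMod d) * (F t).2 = 0
        · exact Finset.mem_union_left _ (by simpa using h1)
        · apply Finset.mem_union_right
          have h2 := hcon t ht (by
            by_cases h3 : ((m : ℤ) : ZMod d) * (F t).1 = 0
            · exact Or.inr fun h4 => h1 ⟨h3, h4⟩
            · exact Or.inl h3)
          simpa using h2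
    have h3 := (Finset.card_le_card hcover).trans (Finset.card_union_le _ _)
    have h4 := h3.trans (Nat.add_le_add_left (Finset.card_union_le _ _) _)
    rw [Finset.card_univ, Fintype.card_prod, ZMod.card] at h4
    have h5 := hb _ hm1'
    have h6 := hb _ hm2'
    have h7 : d ^ 2 ≤ 2 * E.card := by nlinarith
    have h8 : (d : ℝ) ^ 2 ≤ 2 * E.card := by exact_mod_cast h7
    nlinarith [sq_nonneg (Real.sqrt ((d : ℝ) + 1) - 1 - d), sq_nonneg (d : ℝ)]
  obtain ⟨t₀, ht₀, hg1, hg2⟩ := hcard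
  obtain ⟨a, ha⟩ : ∃ a : ℤ, (a : ZMod d) = t₀.1 := ⟨(t₀.1.val : ℤ), by simp⟩
  obtain ⟨b, hb⟩ : ∃ b : ℤ, (b : ZMod d) = t₀.2 := ⟨(t₀.2.val : ℤ), by simp⟩
  have hab : ((a : ZMod d), (b : ZMod d)) = t₀ := by
    rw [ha, hb]
  set v1 : ℤ := p * a + q * b with hv1
  set v2 : ℤ := r * a + s * b with hv2
  have hFt : F t₀ = ((v1 : ZMod d), (v2 : ZMod d)) := by
    rw [← hab, hF, hv1, hv2]; push_cast; rfl
  rw [hFt] at hg1 hg2
  have hn1 : ¬ ((d : ℤ) ∣ -m * v1 ∧ (d : ℤ) ∣ -m * v2) := by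
    rintro ⟨h1, h2⟩
    rw [← cast_zero_iff] at h1 h2
    push_cast at h1 h2
    rcases hg1 with h | h
    · apply h; linear_combination -h1
    · apply h; linear_combination -h2
  have hn2 : ¬ ((d : ℤ) ∣ (m + 1) * v1 ∧ (d : ℤ) ∣ (m + 1) * v2) := by
    rintro ⟨h1, h2⟩
    rw [← cast_zero_iff] at h1 h2
    push_cast at h1 h2 hg2
    rcases hg2 with h | h
    · exact h h1
    · exact h h2
  have hnv : ¬ ((d : ℤ) ∣ v1 ∧ (d : ℤ) ∣ v2) := by
    rintro ⟨h1, h2⟩
    exact hn1 ⟨Dvd.dvd.mul_left h1 _, Dvd.dvd.mul_left h2 _⟩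
  have hnab : ¬ ((d : ℤ) ∣ a ∧ (d : ℤ) ∣ b) := by
    rintro ⟨h1, h2⟩
    exact hnv ⟨dvd_add (Dvd.dvd.mul_left h1 _) (Dvd.dvd.mul_left h2 _),
      dvd_add (Dvd.dvd.mul_left h1 _) (Dvd.dvd.mul_left h2 _)⟩
  have hBE : B a b = A ψ v1 v2 := hE a b (by rw [hab]; exact ht₀)
  -- the two identities
  have hbij : Function.Bijective fun t : ZMod d × ZMod d =>
      ((((p * t.1.val + q * t.2.val : ℤ)) : ZMod d), (((r * t.1.val + s * t.2.val : ℤ)) : ZMod d)) := by
    have : (fun t : ZMod d × ZMod d =>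
      ((((p * t.1.val + q * t.2.val : ℤ)) : ZMod d), (((r * t.1.val + s * t.2.val : ℤ)) : ZMod d)))
        = F := by
      funext t; rw [hF]; simp
    rw [this]; exact hFbij
  have hstar := star_A ψ (-m * v1) (-m * v2) ((m + 1) * v1) ((m + 1) * v2)
    (fun t => (p * (t.1.val : ℤ) + q * t.2.val, r * t.1.val + s * t.2.val)) hbij
  rw [show -m * v2 * ((m + 1) * v1) - -m * v1 * ((m + 1) * v2) = 0 by ring, zpow_zero,
    one_mul] at hstar
  have hid := hB.idem a b
  set N : ℝ := 1 / ((d : ℝ) + 1) with hN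
  have hN0 : 0 < N := by positivity
  have hprod : ∀ x y : ℂ, ‖x‖ ^ 2 = N → ‖y‖ ^ 2 = N → ‖x * y‖ = N := by
    intro x y hx hy
    have h1 : ‖x * y‖ ^ 2 = N ^ 2 := by rw [norm_mul, mul_pow, hx, hy]; ring
    exact (sq_eq_sq₀ (norm_nonneg _) hN0.le).1 h1
  set T : Finset (ZMod d × ZMod d) := E ∪ E.image fun t => t₀ - t with hT
  have hTcard : (T.card : ℝ) ≤ 2 * E.card := by
    have h1 : T.card ≤ E.card + E.card :=
      (Finset.card_union_le _ _).trans (Nat.add_le_add_left Finset.card_image_le _)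
    have h2 : (T.card : ℝ) ≤ E.card + E.card := by exact_mod_cast h1
    linarith
  have hterm : ∀ t : ZMod d × ZMod d,
      ‖B t.1.val t.2.val * B (a - t.1.val) (b - t.2.val) * τ' ^ ((t.2.val : ℤ) * a - t.1.val * b) -
        A ψ (p * (t.1.val : ℤ) + q * t.2.val) (r * t.1.val + s * t.2.val) *
          A ψ (-m * v1 + (m + 1) * v1 - (p * (t.1.val : ℤ) + q * t.2.val))
            (-m * v2 + (m + 1) * v2 - (r * t.1.val + s * t.2.val)) *
          tau d ^ ((r * (t.1.val : ℤ) + s * t.2.val) * ((m + 1) * v1 - -m * v1) -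
            (p * t.1.val + q * t.2.val) * ((m + 1) * v2 - -m * v2))‖ ≤
      if t ∈ T then 2 * N else 0 := by
    intro t
    have h1 : tau d ^ ((r * (t.1.val : ℤ) + s * t.2.val) * ((m + 1) * v1 - -m * v1) -
            (p * t.1.val + q * t.2.val) * ((m + 1) * v2 - -m * v2)) =
        τ' ^ ((t.2.val : ℤ) * a - t.1.val * b) := by
      rw [← hfin, ← zpow_mul]
      congr 1
      rw [hv1, hv2, hD]
      ring
    rw [h1, ← sub_mul, norm_mul]
    have h2 : ‖τ' ^ ((t.2.val : ℤ) * a - t.1.val * b)‖ = 1 := by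
      rw [norm_zpow, hτ', norm_zpow, norm_tau, one_zpow, one_zpow]
    rw [h2, mul_one]
    have e1 : -m * v1 + (m + 1) * v1 - (p * (t.1.val : ℤ) + q * t.2.val) =
        p * (a - t.1.val) + q * (b - t.2.val) := by rw [hv1]; ring
    have e2 : -m * v2 + (m + 1) * v2 - (r * (t.1.val : ℤ) + s * t.2.val) =
        r * (a - t.1.val) + s * (b - t.2.val) := by rw [hv2]; ring
    rw [e1, e2]
    have hcl : (((t.1.val : ℤ) : ZMod d), ((t.2.val : ℤ) : ZMod d)) = t := by simp
    have hcl' : (((a - t.1.val : ℤ) : ZMod d), ((b - t.2.val : ℤ) : ZMod d)) = t₀ - t := by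
      refine Prod.ext ?_ ?_
      · push_cast; rw [ha]; simp
      · push_cast; rw [hb]; simp
    have hz : ∀ x y : ℤ, (d : ℤ) ∣ x → (d : ℤ) ∣ y →
        A ψ (p * x + q * y) (r * x + s * y) = 1 := fun x y hx hy =>
      A_one hψ (dvd_add (Dvd.dvd.mul_left hx _) (Dvd.dvd.mul_left hy _))
        (dvd_add (Dvd.dvd.mul_left hx _) (Dvd.dvd.mul_left hy _))
    have hnz : ∀ x y : ℤ, ¬ ((d : ℤ) ∣ x ∧ (d : ℤ) ∣ y) →
        ‖A ψ (p * x + q * y) (r * x + s * y)‖ ^ 2 = N := by
      intro x y hxy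
      apply norm_A_ne hψ
      rintro ⟨h3, h4⟩
      apply hxy
      rw [← cast_zero_iff] at h3 h4 ⊢
      rw [← cast_zero_iff (d := d) y]
      have h5 : F ((x : ZMod d), (y : ZMod d)) = F (0, 0) := by
        simp only [hF]
        refine Prod.ext ?_ ?_
        · simpa using h3
        · simpa using h4
      have h6 := hFinj h5
      exact ⟨(Prod.mk.inj h6).1, (Prod.mk.inj h6).2⟩
    by_cases hzt : (d : ℤ) ∣ (t.1.val : ℤ) ∧ (d : ℤ) ∣ (t.2.val : ℤ)
    · -- `t = 0`
      have h3 : t = (0, 0) := by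
        rw [← hcl]
        exact Prod.ext ((cast_zero_iff _).2 hzt.1) ((cast_zero_iff _).2 hzt.2)
      rw [hB0 _ _ hzt.1 hzt.2, hz _ _ hzt.1 hzt.2, hE _ _ (by
        rw [hcl', h3]
        change t₀ - 0 ∉ E
        rw [sub_zero]
        exact ht₀), sub_self, norm_zero]
      split_ifs
      · positivity
      · exact le_refl _
    by_cases hzt' : (d : ℤ) ∣ (a - t.1.val : ℤ) ∧ (d : ℤ) ∣ (b - t.2.val : ℤ)
    · have h3 : t₀ - t = (0, 0) := by
        rw [← hcl']
        exact Prod.ext ((cast_zero_iff _).2 hzt'.1) ((cast_zero_iff _).2 hzt'.2)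
      have h4 : t = t₀ := (sub_eq_zero.1 h3).symm
      rw [hB0 _ _ hzt'.1 hzt'.2, hz _ _ hzt'.1 hzt'.2, hE _ _ (by rw [hcl, h4]; exact ht₀), sub_self,
        norm_zero]
      split_ifs
      · positivity
      · exact le_refl _
    by_cases htT : t ∈ T
    · rw [if_pos htT]
      refine (norm_sub_le _ _).trans ?_
      rw [hprod _ _ (hBn _ _ hzt) (hBn _ _ hzt'), hprod _ _ (hnz _ _ hzt) (hnz _ _ hzt')]
      linarith
    · rw [if_neg htT]
      have h3 : t ∉ E := fun h => htT (Finset.mem_union_left _ h)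
      have h4 : t₀ - t ∉ E := fun h => htT (Finset.mem_union_right _ (by
        rw [Finset.mem_image]
        exact ⟨t₀ - t, h, by abel⟩))
      rw [hE _ _ (by rw [hcl]; exact h3), hE _ _ (by rw [hcl']; exact h4), sub_self, norm_zero]
  have hsum : ‖(d : ℂ) * B a b - d * (A ψ (-m * v1) (-m * v2) *
      A ψ ((m + 1) * v1) ((m + 1) * v2))‖ ≤ 4 * E.card * N := by
    rw [← hid, ← hstar, ← Finset.sum_sub_distrib]
    refine (norm_sum_le _ _).trans ((Finset.sum_le_sum fun t _ => hterm t).trans ?_)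
    rw [Finset.sum_ite_mem, Finset.univ_inter, Finset.sum_const, nsmul_eq_mul]
    nlinarith
  have hlow : d * (Real.sqrt (d + 1) - 1) * N ≤ ‖(d : ℂ) * B a b - d * (A ψ (-m * v1) (-m * v2) *
      A ψ ((m + 1) * v1) ((m + 1) * v2))‖ := by
    refine le_trans ?_ (norm_sub_norm_le _ _)
    rw [norm_mul, norm_mul, Complex.norm_natCast,
      hprod _ _ (norm_A_ne hψ hn1) (norm_A_ne hψ hn2), hBE]
    have h1 : ‖A ψ v1 v2‖ = Real.sqrt (d + 1) * N := by
      have h2 : ‖A ψ v1 v2‖ ^ 2 = (Real.sqrt (d + 1) * N) ^ 2 := by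
        rw [norm_A_ne hψ hnv, mul_pow, hsq, hN]
        field_simp
      exact (sq_eq_sq₀ (norm_nonneg _) (by positivity)).1 h2
    rw [h1]
    apply le_of_eq
    ring
  have := hlow.trans hsum
  have h9 := le_of_mul_le_mul_right this hN0
  linarith

lemma like_twist {B : ℤ → ℤ → ℂ} {τ' : ℂ} (hB : Like d B τ') (u v : ℤ) :
    Like d (fun a b => tau d ^ (2 * (u * a + v * b)) * B a b) τ' where
  root := hB.root
  idem := fun s1 s2 => by
    have h := congrArg (fun z => tau d ^ (2 * (u * s1 + v * s2)) * z) (hB.idem s1 s2)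
    simp only [Finset.mul_sum] at h
    rw [show (d : ℂ) * (tau d ^ (2 * (u * s1 + v * s2)) * B s1 s2) =
      tau d ^ (2 * (u * s1 + v * s2)) * (d * B s1 s2) by ring, ← h]
    refine Finset.sum_congr rfl fun t _ => ?_
    have h4 : tau d ^ (2 * (u * s1 + v * s2)) = tau d ^ (2 * (u * (t.1.val : ℤ) + v * t.2.val)) *
        tau d ^ (2 * (u * (s1 - (t.1.val : ℤ)) + v * (s2 - t.2.val))) := by
      rw [← zpow_add₀ tau_ne]
      congr 1
      ring
    rw [h4]
    ring
  mul := fun a b h => by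
    have h4 : tau d ^ (2 * (u * a + v * b)) * tau d ^ (2 * (u * -a + v * -b)) = 1 := by
      rw [← zpow_add₀ tau_ne, show 2 * (u * a + v * b) + 2 * (u * -a + v * -b) = 0 by ring,
        zpow_zero]
    rw [← hB.mul a b h]
    linear_combination (B a b * B (-a) (-b)) * h4

end Pool.Agent.K3h59.SICF
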