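import Pool.Agent.K3h59.SICF.Core

/-!
# Fiducials whose overlaps are related by a matrix
-/

set_option autoImplicit false
set_option linter.unusedSectionVars false

namespace Pool.Agent.K3h59.SICF

open Finset

variable {d : ℕ} [NeZero d]

/-- SIC fiducials -/
def Fid (ψ : ZMod d → ℂ) : Prop :=
  ∑ j, ‖ψ j‖ ^ 2 = 1 ∧ ∀ a b : ZMod d, (a, b) ≠ (0, 0) → ‖c ψ a b‖ ^ 2 = 1 / ((d : ℝ) + 1)

lemma c_zero {ψ : ZMod d → ℂ} (hψ : Fid ψ) : c ψ 0 0 = 1 := by
  unfold c
  have : ∀ j : ZMod d, starRingEnd ℂ (ψ (j + 0)) * ψ j * e (0 * j) = ((‖ψ j‖ ^ 2 : ℝ) : ℂ) := by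
    intro j
    rw [add_zero, zero_mul, e_zero, mul_one, mul_comm, Complex.mul_conj, Complex.normSq_eq_norm_sq]
  simp_rw [this]
  rw [← Complex.ofReal_sum, hψ.1, Complex.ofReal_one]

lemma cast_zero_iff (a : ℤ) : (a : ZMod d) = 0 ↔ (d : ℤ) ∣ a := ZMod.intCast_zmod_eq_zero_iff_dvd a d

lemma norm_A_zero {ψ : ZMod d → ℂ} (hψ : Fid ψ) {a b : ℤ} (ha : (d : ℤ) ∣ a) (hb : (d : ℤ) ∣ b) :
    ‖A ψ a b‖ ^ 2 = 1 := by
  rw [norm_A, (cast_zero_iff a).2 ha, (cast_zero_iff b).2 hb, c_zero hψ]; simp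

lemma norm_A_ne {ψ : ZMod d → ℂ} (hψ : Fid ψ) {a b : ℤ} (h : ¬ ((d : ℤ) ∣ a ∧ (d : ℤ) ∣ b)) :
    ‖A ψ a b‖ ^ 2 = 1 / ((d : ℝ) + 1) := by
  rw [norm_A]
  apply hψ.2
  intro h1
  rw [Prod.mk.injEq] at h1
  exact h ⟨(cast_zero_iff a).1 h1.1, (cast_zero_iff b).1 h1.2⟩

lemma A_zero {ψ : ZMod d → ℂ} (hψ : Fid ψ) : A ψ 0 0 = 1 := by
  unfold A; rw [mul_zero, zpow_zero, one_mul, Int.cast_zero, c_zero hψ]

/-- the projector equation -/
lemma idem {ψ : ZMod d → ℂ} (hψ : Fid ψ) (s1 s2 : ℤ) :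
    ∑ t : ZMod d × ZMod d, A ψ t.1.val t.2.val * A ψ (s1 - t.1.val) (s2 - t.2.val) *
      tau d ^ ((t.2.val : ℤ) * s1 - t.1.val * s2) = d * A ψ s1 s2 := by
  have h := star_A ψ 0 0 s1 s2 (fun t => ((t.1.val : ℤ), (t.2.val : ℤ))) (by
    have : (fun t : ZMod d × ZMod d => ((((t.1.val : ℤ), (t.2.val : ℤ)).1 : ZMod d),
        ((((t.1.val : ℤ), (t.2.val : ℤ)).2 : ℤ) : ZMod d))) = id := by
      funext t; simp
    rw [this]; exact Function.bijective_id)
  rw [A_zero hψ] at h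
  simpa using h

/-! ### Powers of `τ` -/

lemma tau_pow_d : tau d ^ d = (-1) ^ (d + 1) := by
  have hd : (d : ℂ) ≠ 0 := by exact_mod_cast NeZero.ne d
  unfold tau
  rw [neg_pow, ← Complex.exp_nat_mul, mul_div_cancel₀ _ hd, Complex.exp_pi_mul_I, pow_succ]

lemma tau_two_dvd {m : ℤ} (h : (d : ℤ) ∣ m) : tau d ^ (2 * m) = 1 := by
  rw [tau_sq, (cast_zero_iff m).2 h, e_zero]

lemma neg_tau_primitive : IsPrimitiveRoot (-tau d) (2 * d) := by
  have h := Complex.isPrimitiveRoot_exp (2 * d) (by have := NeZero.pos d; omega)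
  have : -tau d = Complex.exp (2 * Real.pi * Complex.I / ((2 * d : ℕ) : ℂ)) := by
    unfold tau
    rw [neg_neg]
    congr 1
    push_cast
    field_simp
  rw [this]
  exact h

/-- roots of the same kind are odd powers of `τ` -/
lemma exists_odd {τ' : ℂ} (h : τ' ^ d = (-1) ^ (d + 1)) : ∃ k : ℤ, Odd k ∧ τ' = tau d ^ k := by
  have h1 : (-τ') ^ d = -1 := by
    rw [neg_pow, h, ← pow_add]
    exact Odd.neg_one_pow ⟨d, by ring⟩
  have h2 : (-τ') ^ (2 * d) = 1 := by rw [mul_comm, pow_mul, h1]; norm_num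
  have : NeZero (2 * d) := ⟨by have := NeZero.pos d; omega⟩
  obtain ⟨i, -, hi⟩ := (neg_tau_primitive (d := d)).eq_pow_of_pow_eq_one h2
  have h3 : (-tau d) ^ d = -1 := by
    rw [neg_pow, tau_pow_d, ← pow_add]
    exact Odd.neg_one_pow ⟨d, by ring⟩
  have h4 : (-1 : ℂ) ^ i = -1 := by
    rw [← h3, ← pow_mul, mul_comm, pow_mul, hi, h1, h3]
  have hodd : Odd i := by
    rcases Nat.even_or_odd i with he | ho
    · rw [he.neg_one_pow] at h4; norm_num at h4
    · exact ho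
  refine ⟨i, by exact_mod_cast hodd, ?_⟩
  rw [zpow_natCast, ← neg_eq_iff_eq_neg.2 (by rw [← hi, hodd.neg_pow] : -τ' = -(tau d ^ i)).symm]
  simp

/-- an odd inverse of a number prime to `d` -/
lemma exists_inv {D : ℤ} (h : IsCoprime D (d : ℤ)) : ∃ k : ℤ, Odd k ∧ tau d ^ (k * D) = tau d := by
  rcases Nat.even_or_odd d with he | ho
  · have hD : Odd D := by
      by_contra h1
      rw [Int.not_odd_iff_even] at h1
      have h2 : (2 : ℤ) ∣ d := by exact_mod_cast he.two_dvd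
      obtain ⟨x, y, hxy⟩ := h
      have h3 : (2 : ℤ) ∣ 1 := by
        rw [← hxy]
        exact dvd_add (Dvd.dvd.mul_left h1.two_dvd x) (Dvd.dvd.mul_left h2 y)
      omega
    have h2 : IsCoprime D 2 := by
      obtain ⟨m, hm⟩ := hD
      exact ⟨1, -m, by rw [hm]; ring⟩
    obtain ⟨k, m, hkm⟩ := IsCoprime.mul_right h2 h
    refine ⟨k, ?_, ?_⟩
    · have h3 : Odd (k * D) := ⟨-(m * d), by linear_combination hkm⟩
      exact (Int.odd_mul.1 h3).1
    · have h3 : k * D = 1 + 2 * (-(m * d)) := by linear_combination hkm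
      rw [h3, zpow_add₀ tau_ne, zpow_one, tau_two_dvd (Dvd.intro_left (-m) (by ring)), mul_one]
  · obtain ⟨k, m, hkm⟩ := h
    have hτ : ∀ n : ℤ, tau d ^ ((n : ℤ) * d) = 1 := by
      intro n
      rw [mul_comm, zpow_mul, zpow_natCast, tau_pow_d, Even.neg_one_pow ho.add_one, one_zpow]
    rcases Int.even_or_odd k with hk | hk
    · refine ⟨k + d, hk.add_odd (by exact_mod_cast ho), ?_⟩
      have h3 : (k + d) * D = 1 + (D - m) * d := by linear_combination hkm
      rw [h3, zpow_add₀ tau_ne, zpow_one, hτ, mul_one]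
    · refine ⟨k, hk, ?_⟩
      have h3 : k * D = 1 + (-m) * d := by linear_combination hkm
      rw [h3, zpow_add₀ tau_ne, zpow_one, hτ, mul_one]

/-! ### The core -/

/-- `B` behaves like the image of the overlaps of a fiducial under a homomorphism of fields -/
structure Like (d : ℕ) [NeZero d] (B : ℤ → ℤ → ℂ) (τ' : ℂ) : Prop where
  root : τ' ^ d = (-1) ^ (d + 1)
  idem : ∀ s1 s2 : ℤ, ∑ t : ZMod d × ZMod d, B t.1.val t.2.val * B (s1 - t.1.val) (s2 - t.2.val) *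
      τ' ^ ((t.2.val : ℤ) * s1 - t.1.val * s2) = d * B s1 s2
  mul : ∀ a b : ℤ, ¬ ((d : ℤ) ∣ a ∧ (d : ℤ) ∣ b) → B a b * B (-a) (-b) = 1 / ((d : ℂ) + 1)

lemma like_self {ψ : ZMod d → ℂ} (hψ : Fid ψ) : Like d (A ψ) (tau d) where
  root := tau_pow_d
  idem := idem hψ
  mul := fun a b h => by rw [A_mul_neg, norm_A_ne hψ h]; push_cast; rfl

lemma like_map {ψ : ZMod d → ℂ} (hψ : Fid ψ) {L : Type*} [Field L] (ι σ : L →+* ℂ)
    (a : ℤ → ℤ → L) (ha : ∀ i j, ι (a i j) = A ψ i j) (t : L) (ht : ι t = tau d) :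
    Like d (fun i j => σ (a i j)) (σ t) where
  root := by
    have : t ^ d = (-1) ^ (d + 1) := by
      apply ι.injective
      rw [map_pow, ht, tau_pow_d, map_pow, map_neg, map_one]
    rw [← map_pow, this, map_pow, map_neg, map_one]
  idem := fun s1 s2 => by
    have h : ∑ i : ZMod d × ZMod d, a i.1.val i.2.val * a (s1 - i.1.val) (s2 - i.2.val) *
        t ^ ((i.2.val : ℤ) * s1 - i.1.val * s2) = d * a s1 s2 := by
      apply ι.injective
      simp only [map_sum, map_mul, map_zpow₀, map_natCast, ha, ht]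
      exact idem hψ s1 s2
    have h2 := congrArg σ h
    simpa only [map_sum, map_mul, map_zpow₀, map_natCast] using h2
  mul := fun i j h => by
    have h1 : a i j * a (-i) (-j) = 1 / ((d : L) + 1) := by
      apply ι.injective
      rw [map_mul, ha, ha, (like_self hψ).mul i j h]
      simp
    rw [← map_mul, h1]
    simp

/-- a matrix which does not kill vectors has a determinant prime to `d` -/
lemma coprime_of_inj {p q r s : ℤ}
    (h : ∀ a b : ℤ, (d : ℤ) ∣ p * a + q * b → (d : ℤ) ∣ r * a + s * b → (d : ℤ) ∣ a ∧ (d : ℤ) ∣ b) :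
    IsCoprime (p * s - q * r) (d : ℤ) := by
  rw [Int.isCoprime_iff_gcd_eq_one]
  set D := p * s - q * r with hD
  set g : ℤ := (Int.gcd D d : ℤ) with hg
  have hd0 : (0 : ℤ) < d := by exact_mod_cast NeZero.pos d
  have hg0 : 0 < g := by
    rw [hg]
    exact_mod_cast Int.gcd_pos_of_ne_zero_right _ hd0.ne'
  obtain ⟨d', hd'⟩ : g ∣ d := Int.gcd_dvd_right _ _
  obtain ⟨D', hD'⟩ : g ∣ D := Int.gcd_dvd_left _ _
  have hd'0 : 0 < d' := by
    rcases lt_trichotomy d' 0 with h1 | h1 | h1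
    · have := mul_neg_of_pos_of_neg hg0 h1; omega
    · rw [h1, mul_zero] at hd'; omega
    · exact h1
  have hdiv : (d : ℤ) ∣ d' * D := ⟨D', by rw [hD', hd']; ring⟩
  have can : ∀ x : ℤ, (d : ℤ) ∣ d' * x → g ∣ x := by
    intro x hx
    rw [hd', mul_comm] at hx
    exact (mul_dvd_mul_iff_left hd'0.ne').1 hx
  obtain ⟨h1, h2⟩ := h (d' * s) (d' * (-r)) (by
      rw [show p * (d' * s) + q * (d' * -r) = d' * D by rw [hD]; ring]; exact hdiv) (by
      rw [show r * (d' * s) + s * (d' * -r) = 0 by ring]; exact dvd_zero _)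
  obtain ⟨h3, h4⟩ := h (d' * (-q)) (d' * p) (by
      rw [show p * (d' * -q) + q * (d' * p) = 0 by ring]; exact dvd_zero _) (by
      rw [show r * (d' * -q) + s * (d' * p) = d' * D by rw [hD]; ring]; exact hdiv)
  obtain ⟨p', hp⟩ := can _ h4
  obtain ⟨r', hr⟩ : g ∣ r := (dvd_neg).1 (can _ h2)
  obtain ⟨h5, -⟩ := h d' 0 ⟨p', by rw [hp, hd']; ring⟩ ⟨r', by rw [hr, hd']; ring⟩
  have h6 : (d : ℤ) ≤ d' := Int.le_of_dvd hd'0 h5
  have h7 : g = 1 := by
    by_contra hne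
    have : 2 ≤ g := by omega
    nlinarith
  rw [hg] at h7
  exact_mod_cast h7

/-- **The core.** -/
theorem core (hd : 2 ≤ d) {B : ℤ → ℤ → ℂ} {τ' : ℂ} (hB : Like d B τ') {ψ : ZMod d → ℂ}
    (hψ : Fid ψ) {p q r s u v : ℤ}
    (hF : ∀ a b : ℤ, B a b = tau d ^ (2 * (u * a + v * b)) * A ψ (p * a + q * b) (r * a + s * b)) :
    tau d ^ (p * s - q * r) = τ' ∨ tau d ^ (p * s - q * r) = τ'⁻¹ := by
  have hd1 : (1 : ℝ) < (d : ℝ) + 1 := by
    have : (2 : ℝ) ≤ d := by exact_mod_cast hd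
    linarith
  have hinj : ∀ a b : ℤ, (d : ℤ) ∣ p * a + q * b → (d : ℤ) ∣ r * a + s * b →
      (d : ℤ) ∣ a ∧ (d : ℤ) ∣ b := by
    intro a b h1 h2
    by_contra h
    have h3 := hB.mul a b h
    rw [hF, hF, show p * -a + q * -b = -(p * a + q * b) by ring,
      show r * -a + s * -b = -(r * a + s * b) by ring] at h3
    have h4 : tau d ^ (2 * (u * a + v * b)) * tau d ^ (2 * (u * -a + v * -b)) = 1 := by
      rw [← zpow_add₀ tau_ne, show 2 * (u * a + v * b) + 2 * (u * -a + v * -b) = 0 by ring,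
        zpow_zero]
    have h5 := A_mul_neg ψ (p * a + q * b) (r * a + s * b)
    rw [norm_A_zero hψ h1 h2] at h5
    have h6 : (1 : ℂ) = 1 / ((d : ℂ) + 1) := by
      rw [← h3]
      push_cast at h5
      linear_combination -h4 * (A ψ (p * a + q * b) (r * a + s * b) *
        A ψ (-(p * a + q * b)) (-(r * a + s * b))) - h5
    have hd0 : (d : ℂ) + 1 ≠ 0 := by exact_mod_cast Nat.succ_ne_zero d
    rw [eq_div_iff hd0, one_mul] at h6
    have h7 : (d : ℂ) = 0 := by linear_combination h6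
    exact NeZero.ne d (by exact_mod_cast h7)
  obtain ⟨k, hk, hτ'⟩ := exists_odd hB.root
  obtain ⟨e₀, he₀, he₁⟩ := exists_inv (coprime_of_inj hinj)
  set D := p * s - q * r with hD
  have hδ : Odd (k * e₀) := hk.mul he₀
  obtain ⟨m, hm⟩ := hδ
  -- `x = -m (p, r)`, `y = (m + 1) (p, r)`, `y - x = (2 m + 1) (p, r)`
  have hbij : Function.Bijective fun t : ZMod d × ZMod d =>
      ((((p * t.1.val + q * t.2.val : ℤ)) : ZMod d), (((r * t.1.val + s * t.2.val : ℤ)) : ZMod d)) := by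
    rw [← Finite.injective_iff_bijective]
    intro t t' h
    simp only [Prod.mk.injEq] at h
    obtain ⟨h1, h2⟩ := h
    rw [ZMod.intCast_eq_intCast_iff_dvd_sub] at h1 h2
    obtain ⟨h3, h4⟩ := hinj ((t'.1.val : ℤ) - t.1.val) ((t'.2.val : ℤ) - t.2.val)
      (by convert h1 using 1; ring) (by convert h2 using 1; ring)
    rw [← ZMod.intCast_eq_intCast_iff_dvd_sub] at h3 h4
    refine Prod.ext ?_ ?_
    · simpa using h3
    · simpa using h4
  have hstar := star_A ψ (-m * p) (-m * r) ((m + 1) * p) ((m + 1) * r)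
    (fun t => (p * (t.1.val : ℤ) + q * t.2.val, r * t.1.val + s * t.2.val)) hbij
  rw [show -m * r * ((m + 1) * p) - -m * p * ((m + 1) * r) = 0 by ring, zpow_zero, one_mul] at hstar
  have hid := hB.idem 1 0
  have key : A ψ p r = A ψ (-m * p) (-m * r) * A ψ ((m + 1) * p) ((m + 1) * r) := by
    have h1 : ∀ t : ZMod d × ZMod d, B t.1.val t.2.val * B (1 - t.1.val) (0 - t.2.val) *
        τ' ^ ((t.2.val : ℤ) * 1 - t.1.val * 0) = tau d ^ (2 * u) *
        (A ψ (p * (t.1.val : ℤ) + q * t.2.val) (r * t.1.val + s * t.2.val) *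
          A ψ (-m * p + (m + 1) * p - (p * (t.1.val : ℤ) + q * t.2.val))
            (-m * r + (m + 1) * r - (r * t.1.val + s * t.2.val)) *
          tau d ^ ((r * (t.1.val : ℤ) + s * t.2.val) * ((m + 1) * p - -m * p) -
            (p * t.1.val + q * t.2.val) * ((m + 1) * r - -m * r))) := by
      intro t
      have h2 : τ' ^ ((t.2.val : ℤ) * 1 - t.1.val * 0) =
          tau d ^ ((r * (t.1.val : ℤ) + s * t.2.val) * ((m + 1) * p - -m * p) -
            (p * t.1.val + q * t.2.val) * ((m + 1) * r - -m * r)) := by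
        have h3 : (r * (t.1.val : ℤ) + s * t.2.val) * ((m + 1) * p - -m * p) -
            (p * t.1.val + q * t.2.val) * ((m + 1) * r - -m * r) = (e₀ * D) * (k * t.2.val) := by
          linear_combination (-(D * t.2.val)) * hm + (2 * m + 1) * t.2.val * (-hD)
        rw [h3, zpow_mul, he₁, hτ', ← zpow_mul]
        congr 1
        ring
      rw [hF, hF, h2, show p * (1 - (t.1.val : ℤ)) + q * (0 - t.2.val) =
          -m * p + (m + 1) * p - (p * (t.1.val : ℤ) + q * t.2.val) by ring,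
        show r * (1 - (t.1.val : ℤ)) + s * (0 - t.2.val) =
          -m * r + (m + 1) * r - (r * t.1.val + s * t.2.val) by ring]
      have h4 : tau d ^ (2 * (u * (t.1.val : ℤ) + v * t.2.val)) *
          tau d ^ (2 * (u * (1 - (t.1.val : ℤ)) + v * (0 - t.2.val))) = tau d ^ (2 * u) := by
        rw [← zpow_add₀ tau_ne]
        congr 1
        ring
      rw [← h4]
      ring
    simp_rw [h1] at hid
    rw [← Finset.mul_sum, hstar, hF, show p * 1 + q * 0 = p by ring,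
      show r * 1 + s * 0 = r by ring, show 2 * (u * 1 + v * 0) = 2 * u by ring] at hid
    have hd0 : (d : ℂ) ≠ 0 := by exact_mod_cast NeZero.ne d
    have h5 : tau d ^ (2 * u) ≠ 0 := zpow_ne_zero _ tau_ne
    have h6 : ((d : ℂ) * tau d ^ (2 * u)) * (A ψ (-m * p) (-m * r) *
        A ψ ((m + 1) * p) ((m + 1) * r)) = ((d : ℂ) * tau d ^ (2 * u)) * A ψ p r := by
      linear_combination hid
    exact (mul_left_cancel₀ (mul_ne_zero hd0 h5) h6).symm
  have hpr : ¬ ((d : ℤ) ∣ p ∧ (d : ℤ) ∣ r) := by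
    rintro ⟨h1, h2⟩
    have h3 := (hinj 1 0 (by simpa using h1) (by simpa using h2)).1
    have := Int.le_of_dvd one_pos h3
    omega
  have hmul : ∀ n : ℤ, (d : ℤ) ∣ n * p → (d : ℤ) ∣ n * r → (d : ℤ) ∣ n := by
    intro n h1 h2
    exact (hinj n 0 (by rw [mul_zero, add_zero, mul_comm]; exact h1)
      (by rw [mul_zero, add_zero, mul_comm]; exact h2)).1
  have hcase : (d : ℤ) ∣ m ∨ (d : ℤ) ∣ m + 1 := by
    by_contra hcon
    rw [not_or] at hcon
    have h1 : ‖A ψ (-m * p) (-m * r)‖ ^ 2 = 1 / ((d : ℝ) + 1) :=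
      norm_A_ne hψ fun h => hcon.1 ((dvd_neg).1 (hmul (-m) h.1 h.2))
    have h2 : ‖A ψ ((m + 1) * p) ((m + 1) * r)‖ ^ 2 = 1 / ((d : ℝ) + 1) :=
      norm_A_ne hψ fun h => hcon.2 (hmul (m + 1) h.1 h.2)
    have h3 : ‖A ψ p r‖ ^ 2 = 1 / ((d : ℝ) + 1) := norm_A_ne hψ hpr
    rw [key, norm_mul, mul_pow, h1, h2] at h3
    have h4 : 1 / ((d : ℝ) + 1) ≠ 0 := by positivity
    have h5 : 1 / ((d : ℝ) + 1) = 1 := mul_left_cancel₀ h4 (by rw [h3, mul_one])
    rw [div_eq_one_iff_eq (by linarith)] at h5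
    linarith
  have hfin : tau d ^ ((2 * m + 1) * D) = τ' := by
    rw [← hm, show k * e₀ * D = (e₀ * D) * k by ring, zpow_mul, he₁, hτ']
  rcases hcase with h | h
  · left
    rw [← hfin, zpow_mul, zpow_add₀ tau_ne, tau_two_dvd h, one_mul, zpow_one]
  · right
    rw [← hfin, zpow_mul, show 2 * m + 1 = 2 * (m + 1) + (-1) by ring, zpow_add₀ tau_ne,
      tau_two_dvd h, one_mul, zpow_neg_one, inv_zpow, inv_inv]

end Pool.Agent.K3h59.SICF
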